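import Pool.Agent.H8.MC.FTargets

/-!
# Closure of the first-order definable properties under the operations of logic
-/

set_option autoImplicit false

namespace Pool.Agent.H14.MF

open Pool.Agent.H8.MC Pool.Agent.H69.VR Pool.Agent.H8.VR Pool.Agent.H69.Sp

/-- properties of elements in a structure -/
abbrev PT : Type 1 := (A : Type) → (ℕ → A → Prop) → (A → A → Prop) → (ℕ → A) → Prop

theorem msf_congr {p q : PT} (hp : FOD p) (h : ∀ A P E e, p A P E e ↔ q A P E e) : FOD q := by
  obtain ⟨φ, h1, h2⟩ := hp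
  exact ⟨φ, h1, fun A P R e V => (h2 A P R e V).trans (h A P (R 0) e)⟩

theorem msf_un (i x : ℕ) : FOD fun _ P _ e => P i (e x) :=
  ⟨.un i x, ⟨trivial, trivial⟩, fun _ _ _ _ _ => Iff.rfl⟩

theorem msf_bi (x y : ℕ) : FOD fun _ _ E e => E (e x) (e y) :=
  ⟨.bi 0 x y, ⟨rfl, trivial⟩, fun _ _ _ _ _ => Iff.rfl⟩

theorem msf_eq (x y : ℕ) : FOD fun _ _ _ e => e x = e y :=
  ⟨.eq x y, ⟨trivial, trivial⟩, fun _ _ _ _ _ => Iff.rfl⟩

theorem msf_not {p : PT} (hp : FOD p) : FOD fun A P E e => ¬ p A P E e := by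
  obtain ⟨φ, h1, h2⟩ := hp
  exact ⟨.neg φ, h1, fun A P R e V => not_congr (h2 A P R e V)⟩

theorem msf_and {p q : PT} (hp : FOD p) (hq : FOD q) :
    FOD fun A P E e => p A P E e ∧ q A P E e := by
  obtain ⟨φ, h1, h2⟩ := hp
  obtain ⟨ψ, h3, h4⟩ := hq
  exact ⟨.and φ ψ, ⟨⟨h1.1, h3.1⟩, h1.2, h3.2⟩, fun A P R e V =>
    and_congr (h2 A P R e V) (h4 A P R e V)⟩

theorem msf_const (q : Prop) : FOD fun _ _ _ _ => q := by
  by_cases hq : q
  · exact msf_congr (msf_eq 0 0) fun A P E e => ⟨fun _ => hq, fun _ => rfl⟩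
  · exact msf_congr (msf_not (msf_eq 0 0)) fun A P E e =>
      ⟨fun h => absurd rfl h, fun h => absurd h hq⟩

theorem msf_or {p q : PT} (hp : FOD p) (hq : FOD q) :
    FOD fun A P E e => p A P E e ∨ q A P E e :=
  msf_congr (msf_not (msf_and (msf_not hp) (msf_not hq))) fun A P E e => by
    by_cases h1 : p A P E e <;> by_cases h2 : q A P E e <;> simp [h1, h2]

theorem msf_imp {p q : PT} (hp : FOD p) (hq : FOD q) :
    FOD fun A P E e => p A P E e → q A P E e :=
  msf_congr (msf_or (msf_not hp) hq) fun A P E e => by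
    by_cases h1 : p A P E e <;> by_cases h2 : q A P E e <;> simp [h1, h2]

theorem msf_ex (x : ℕ) {p : PT} (hp : FOD p) :
    FOD fun A P E e => ∃ a, p A P E (Function.update e x a) := by
  obtain ⟨φ, h1, h2⟩ := hp
  exact ⟨.ex x φ, h1, fun A P R e V => exists_congr fun a => h2 A P R _ V⟩

theorem msf_all (x : ℕ) {p : PT} (hp : FOD p) :
    FOD fun A P E e => ∀ a, p A P E (Function.update e x a) :=
  msf_congr (msf_not (msf_ex x (msf_not hp))) fun A P E e => by
    simp only [not_exists, not_not]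

theorem msf_list {ι : Type} (p : ι → PT) (hp : ∀ i, FOD (p i)) (l : List ι) :
    FOD fun A P E e => ∀ i ∈ l, p i A P E e := by
  induction l with
  | nil => exact msf_congr (msf_const True) fun A P E e => by simp
  | cons i l ih => exact msf_congr (msf_and (hp i) ih) fun A P E e => by simp

theorem msf_finAll (ι : Type) [Finite ι] (p : ι → PT) (hp : ∀ i, FOD (p i)) :
    FOD fun A P E e => ∀ i, p i A P E e := by
  have := Fintype.ofFinite ι
  exact msf_congr (msf_list p hp Finset.univ.toList) fun A P E e => by simp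

theorem msf_finEx (ι : Type) [Finite ι] (p : ι → PT) (hp : ∀ i, FOD (p i)) :
    FOD fun A P E e => ∃ i, p i A P E e :=
  msf_congr (msf_not (msf_finAll ι (fun i A P E e => ¬ p i A P E e) fun i => msf_not (hp i)))
    fun A P E e => by
      simp only [not_forall, not_not]

theorem pf_MSF : T_MSF :=
  ⟨msf_un, msf_bi, msf_eq, msf_const, fun _ => msf_not, fun _ _ => msf_and,
    fun _ _ => msf_or, fun _ _ => msf_imp, fun x _ => msf_ex x, fun x _ => msf_all x,
    msf_finAll, msf_finEx⟩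

end Pool.Agent.H14.MF
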