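import Pool.Agent.H8.MC.FTargets

/-!
# The rules for models of grids are definable in first-order logic
-/

set_option autoImplicit false

namespace Pool.Agent.H14.MF

open Pool.Agent.H8.MC Pool.Agent.H69.VR Pool.Agent.H8.VR Pool.Agent.H69.Sp

/-- the properties of assignments -/
abbrev Pr : Type 1 := (A : Type) → (ℕ → A → Prop) → (A → A → Prop) → (ℕ → A) → Prop

theorem FOD_congr {p q : Pr} (h : FOD p) (hpq : ∀ A P E e, p A P E e ↔ q A P E e) : FOD q := by
  have : p = q := by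
    funext A P E e
    exact propext (hpq A P E e)
  rwa [← this]

instance : Finite Lc := by
  refine Finite.of_injective (fun x : Lc => (x.l, x.r, x.b, x.t)) ?_
  rintro ⟨a, b, c, d⟩ ⟨a', b', c', d'⟩ h
  simp only [Prod.mk.injEq] at h
  obtain ⟨rfl, rfl, rfl, rfl⟩ := h
  rfl

/-- the data of a vertex -/
abbrev XX (Q : Type) : Type := Option (ZMod 3 × ZMod 3) × Lc × Q

/-- the code of the data -/
noncomputable def cd {Q : Type} [Finite Q] (x : XX Q) : ℕ := (Finite.equivFin (XX Q) x : ℕ) + 1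

theorem cd_inj {Q : Type} [Finite Q] {x y : XX Q} (h : cd x = cd y) : x = y := by
  unfold cd at h
  exact (Finite.equivFin (XX Q)).injective (Fin.ext (by omega))

theorem cd_ne {Q : Type} [Finite Q] (x : XX Q) : cd x ≠ 0 := Nat.succ_ne_zero _

section

variable (Q : Type) [Finite Q] {A : Type}

/-- the data of two vertices satisfy `F` -/
def D2 (P : ℕ → A → Prop) (F : XX Q → XX Q → Prop) (a b : A) : Prop :=
  ∃ x y, F x y ∧ P (cd x) a ∧ P (cd y) b

/-- the data of a vertex satisfy `F` -/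
def D1 (P : ℕ → A → Prop) (F : XX Q → Prop) (a : A) : Prop := ∃ x, F x ∧ P (cd x) a

/-- at most `k` edges between vertices of the same colour -/
def Cm' (P : ℕ → A → Prop) (E : A → A → Prop) : ℕ → A → A → Prop
  | 0, u, v => u = v
  | k + 1, u, v => u = v ∨ ∃ w, (E u w ∧ D2 Q P (fun x y => x.1 = y.1) u w) ∧ Cm' P E k w v

/-- edges between components -/
def Sc' (L : ℕ) (P : ℕ → A → Prop) (E : A → A → Prop) (d : ZMod 3 × ZMod 3) (u v : A) : Prop :=
  ∃ a b, Cm' Q P E L u a ∧ Cm' Q P E L v b ∧ E a b ∧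
    D2 Q P (fun x y => ∃ p, x.1 = some p ∧ y.1 = some (p + d)) a b

/-- the steps -/
def Ec' (L : ℕ) (P : ℕ → A → Prop) (E : A → A → Prop) (d : ZMod 3 × ZMod 3) (x y : A) : Prop :=
  P 0 x ∧ P 0 y ∧ Sc' Q L P E d x y

/-- all rules -/
def Big (L : ℕ) (U : Bool → Bool → Bool → Bool → Q → Prop) (Hh Vv : Q → Q → Prop) (P : ℕ → A → Prop)
    (E : A → A → Prop) : Prop :=
  (∀ a, ∃ x : XX Q, P (cd x) a ∧ ∀ y : XX Q, y ≠ x → ¬ P (cd y) a) ∧
  (∀ u v, Cm' Q P E (L + 1) u v → Cm' Q P E L u v) ∧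
  (∀ x y, Ec' Q L P E (1, 0) x y → D2 Q P (fun s t => s.2.1.r = false ∧ t.2.1.l = false ∧
    s.2.1.b = t.2.1.b ∧ s.2.1.t = t.2.1.t) x y) ∧
  (∀ x y, Ec' Q L P E (0, 1) x y → D2 Q P (fun s t => s.2.1.t = false ∧ t.2.1.b = false ∧
    s.2.1.l = t.2.1.l ∧ s.2.1.r = t.2.1.r) x y) ∧
  (∀ x y y', Ec' Q L P E (1, 0) x y → Ec' Q L P E (1, 0) x y' → y = y') ∧
  (∀ x x' y, Ec' Q L P E (1, 0) x y → Ec' Q L P E (1, 0) x' y → x = x') ∧
  (∀ x y y', Ec' Q L P E (0, 1) x y → Ec' Q L P E (0, 1) x y' → y = y') ∧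
  (∀ x x' y, Ec' Q L P E (0, 1) x y → Ec' Q L P E (0, 1) x' y → x = x') ∧
  (∀ x, P 0 x → D1 Q P (fun s => s.2.1.r = false) x → ∃ y, Ec' Q L P E (1, 0) x y) ∧
  (∀ x, P 0 x → D1 Q P (fun s => s.2.1.t = false) x → ∃ y, Ec' Q L P E (0, 1) x y) ∧
  (∀ y, P 0 y → D1 Q P (fun s => s.2.1.l = false) y → ∃ x, Ec' Q L P E (1, 0) x y) ∧
  (∀ y, P 0 y → D1 Q P (fun s => s.2.1.b = false) y → ∃ x, Ec' Q L P E (0, 1) x y) ∧
  (∃ x, P 0 x ∧ D1 Q P (fun s => s.2.1.l = true ∧ s.2.1.b = true) x) ∧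
  (∀ x y, P 0 x → P 0 y → D1 Q P (fun s => s.2.1.l = true) x → D1 Q P (fun s => s.2.1.b = true) x →
    D1 Q P (fun s => s.2.1.l = true) y → D1 Q P (fun s => s.2.1.b = true) y → x = y) ∧
  (∀ x y z, Ec' Q L P E (1, 0) x y → Ec' Q L P E (0, 1) x z →
    ∃ w, Ec' Q L P E (1, 0) z w ∧ Ec' Q L P E (0, 1) y w) ∧
  (∀ x, P 0 x → D1 Q P (fun s => U s.2.1.l s.2.1.r s.2.1.b s.2.1.t s.2.2) x) ∧
  (∀ x y, Ec' Q L P E (1, 0) x y → D2 Q P (fun s t => Hh s.2.2 t.2.2) x y) ∧
  ∀ x y, Ec' Q L P E (0, 1) x y → D2 Q P (fun s t => Vv s.2.2 t.2.2) x y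

variable {Q} in
theorem D2_iff {P : ℕ → A → Prop} {dat : A → XX Q} (h : ∀ x a, P (cd x) a ↔ x = dat a)
    (F : XX Q → XX Q → Prop) (a b : A) : D2 Q P F a b ↔ F (dat a) (dat b) := by
  unfold D2
  simp only [h]
  constructor
  · rintro ⟨x, y, hF, rfl, rfl⟩
    exact hF
  · exact fun hF => ⟨_, _, hF, rfl, rfl⟩

variable {Q} in
theorem D1_iff {P : ℕ → A → Prop} {dat : A → XX Q} (h : ∀ x a, P (cd x) a ↔ x = dat a)
    (F : XX Q → Prop) (a : A) : D1 Q P F a ↔ F (dat a) := by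
  unfold D1
  simp only [h]
  constructor
  · rintro ⟨x, hF, rfl⟩
    exact hF
  · exact fun hF => ⟨_, hF, rfl⟩

variable {Q} in
theorem CmB_iff {P : ℕ → A → Prop} {dat : A → XX Q} (h : ∀ x a, P (cd x) a ↔ x = dat a)
    (G : SimpleGraph A) : ∀ (k : ℕ) (u v : A),
    Cm' Q P G.Adj k u v ↔ CmB G (fun a => (dat a).1) k u v
  | 0, u, v => Iff.rfl
  | k + 1, u, v => by
    unfold Cm' CmB
    simp only [D2_iff h, CmB_iff h G k]

theorem CmB_refl (G : SimpleGraph A) (co : A → Option (ZMod 3 × ZMod 3)) :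
    ∀ (k : ℕ) (u : A), CmB G co k u u
  | 0, _ => rfl
  | _ + 1, _ => Or.inl rfl

theorem Cm_of_CmB (G : SimpleGraph A) (co : A → Option (ZMod 3 × ZMod 3)) :
    ∀ (k : ℕ) (u v : A), CmB G co k u v → Cm G co u v
  | 0, u, v, h => by
    have h : u = v := h
    rw [h]
    exact Relation.ReflTransGen.refl
  | k + 1, u, v, h => by
    rcases h with h | ⟨w, h1, h2⟩
    · rw [h]
      exact Relation.ReflTransGen.refl
    · exact Relation.ReflTransGen.head h1 (Cm_of_CmB G co k w v h2)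

theorem Cm_iff_CmB (G : SimpleGraph A) (co : A → Option (ZMod 3 × ZMod 3)) (L : ℕ)
    (bd : ∀ u v, CmB G co (L + 1) u v → CmB G co L u v) (u v : A) :
    CmB G co L u v ↔ Cm G co u v := by
  refine ⟨Cm_of_CmB G co L u v, fun h => ?_⟩
  unfold Cm at h
  induction h using Relation.ReflTransGen.head_induction_on with
  | refl => exact CmB_refl G co L v
  | head h1 _ ih => exact bd _ _ (Or.inr ⟨_, h1, ih⟩)

variable {Q} in
theorem Sc_iff {P : ℕ → A → Prop} {dat : A → XX Q} (h : ∀ x a, P (cd x) a ↔ x = dat a)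
    (G : SimpleGraph A) (L : ℕ) (bd : ∀ u v, CmB G (fun a => (dat a).1) (L + 1) u v →
      CmB G (fun a => (dat a).1) L u v) (d : ZMod 3 × ZMod 3) (u v : A) :
    Sc' Q L P G.Adj d u v ↔ Pool.Agent.H8.MC.Sc G (fun a => (dat a).1) d u v := by
  unfold Sc' Pool.Agent.H8.MC.Sc
  simp only [CmB_iff h G, Cm_iff_CmB G _ L bd, D2_iff h]
  constructor
  · rintro ⟨a, b, h1, h2, h3, p, h4, h5⟩
    exact ⟨a, b, p, h1, h2, h3, h4, h5⟩
  · rintro ⟨a, b, p, h1, h2, h3, h4, h5⟩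
    exact ⟨a, b, h1, h2, h3, p, h4, h5⟩

variable {Q} in
theorem big_iff (L : ℕ) (U : Bool → Bool → Bool → Bool → Q → Prop) (Hh Vv : Q → Q → Prop)
    {P : ℕ → A → Prop} {dat : A → XX Q} (h : ∀ x a, P (cd x) a ↔ x = dat a) (G : SimpleGraph A) :
    Big Q L U Hh Vv P G.Adj ↔ FRule L U Hh Vv G (fun a => (dat a).1) (P 0) (fun a => (dat a).2.1)
      (fun a => (dat a).2.2) := by
  by_cases bd : ∀ u v, CmB G (fun a => (dat a).1) (L + 1) u v → CmB G (fun a => (dat a).1) L u v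
  · have hE : ∀ x y, Ec' Q L P G.Adj (1, 0) x y ↔ Ec G (fun a => (dat a).1) (P 0) x y :=
      fun x y => by
        unfold Ec' Ec
        rw [Sc_iff h G L bd]
    have hN : ∀ x y, Ec' Q L P G.Adj (0, 1) x y ↔ Nc G (fun a => (dat a).1) (P 0) x y :=
      fun x y => by
        unfold Ec' Nc
        rw [Sc_iff h G L bd]
    unfold Big
    simp only [hE, hN, D2_iff h, D1_iff h, CmB_iff h G]
    constructor
    · rintro ⟨-, h0, h1, h2, h3, h4, h5, h6, h7, h8, h9, h10, h11, h12, h13, h14, h15, h16⟩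
      exact ⟨h0, h1, h2, h3, h4, h5, h6, h7, h8, h9, h10, h11, h12, h13, h14, h15, h16⟩
    · intro hR
      exact ⟨fun a => ⟨dat a, (h _ _).2 rfl, fun y hy hy' => hy ((h _ _).1 hy')⟩, hR.bd, hR.eE,
        hR.eN, hR.fE, hR.iE, hR.fN, hR.iN, hR.xE, hR.xN, hR.zE, hR.zN, hR.cor, hR.uc, hR.sq, hR.un,
        hR.hh, hR.vv⟩
  · constructor
    · intro hB
      refine absurd ?_ bd
      have h1 := hB.2.1
      simpa only [CmB_iff h G] using h1
    · intro hR
      exact absurd hR.bd bd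

end

section

variable (hM : T_MSF) (Q : Type) [Finite Q]

include hM

theorem md_D2 (F : XX Q → XX Q → Prop) (i j : ℕ) :
    FOD fun A P _ e => D2 Q P F (e i) (e j) := by
  obtain ⟨hun, hbi, heq, hco, hneg, hand, hor, himp, hex, hall, hfall, hfex⟩ := hM
  exact hfex _ _ fun x => hfex _ _ fun y => hand _ _ (hco _) (hand _ _ (hun _ _) (hun _ _))

theorem md_D1 (F : XX Q → Prop) (i : ℕ) : FOD fun A P _ e => D1 Q P F (e i) := by
  obtain ⟨hun, hbi, heq, hco, hneg, hand, hor, himp, hex, hall, hfall, hfex⟩ := hM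
  exact hfex _ _ fun x => hand _ _ (hco _) (hun _ _)

theorem md_Cm (k : ℕ) : ∀ i j : ℕ, FOD fun A P E e => Cm' Q P E k (e i) (e j) := by
  have hD := md_D2 hM Q (fun x y => x.1 = y.1)
  obtain ⟨hun, hbi, heq, hco, hneg, hand, hor, himp, hex, hall, hfall, hfex⟩ := hM
  induction k with
  | zero => exact fun i j => heq i j
  | succ k ih =>
    intro i j
    have hi : i ≠ i + j + 1 := by omega
    have hj : j ≠ i + j + 1 := by omega
    refine FOD_congr (hor _ _ (heq i j) (hex (i + j + 1) _ (hand _ _ (hand _ _ (hbi i (i + j + 1))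
      (hD i (i + j + 1))) (ih (i + j + 1) j)))) ?_
    intro A P E e
    rw [Cm'.eq_2]
    simp only [Function.update_self, Function.update_of_ne hi, Function.update_of_ne hj]

theorem md_Sc (L : ℕ) (d : ZMod 3 × ZMod 3) (i j : ℕ) (hi : i < 4) (hj : j < 4) :
    FOD fun A P E e => Sc' Q L P E d (e i) (e j) := by
  have hD := md_D2 hM Q (fun x y => ∃ p, x.1 = some p ∧ y.1 = some (p + d)) 4 5
  have hC1 := md_Cm hM Q L i 4
  have hC2 := md_Cm hM Q L j 5
  obtain ⟨hun, hbi, heq, hco, hneg, hand, hor, himp, hex, hall, hfall, hfex⟩ := hM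
  have i4 : i ≠ 4 := by omega
  have i5 : i ≠ 5 := by omega
  have j4 : j ≠ 4 := by omega
  have j5 : j ≠ 5 := by omega
  refine FOD_congr (hex 4 _ (hex 5 _ (hand _ _ hC1 (hand _ _ hC2 (hand _ _ (hbi 4 5) hD))))) ?_
  intro A P E e
  unfold Sc'
  simp [Function.update_apply, i4, i5, j4, j5]

theorem md_Ec (L : ℕ) (d : ZMod 3 × ZMod 3) (i j : ℕ) (hi : i < 4) (hj : j < 4) :
    FOD fun A P E e => Ec' Q L P E d (e i) (e j) := by
  have hS := md_Sc hM Q L d i j hi hj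
  obtain ⟨hun, hbi, heq, hco, hneg, hand, hor, himp, hex, hall, hfall, hfex⟩ := hM
  exact hand _ _ (hun 0 i) (hand _ _ (hun 0 j) hS)

theorem md_Big (L : ℕ) (U : Bool → Bool → Bool → Bool → Q → Prop) (Hh Vv : Q → Q → Prop) :
    FOD fun A P E _ => Big Q L U Hh Vv P E := by
  have hE : ∀ i j, i < 4 → j < 4 → FOD fun A P E e => Ec' Q L P E (1, 0) (e i) (e j) :=
    fun i j hi hj => md_Ec hM Q L _ i j hi hj
  have hN : ∀ i j, i < 4 → j < 4 → FOD fun A P E e => Ec' Q L P E (0, 1) (e i) (e j) :=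
    fun i j hi hj => md_Ec hM Q L _ i j hi hj
  have hC := fun k i j => md_Cm hM Q k i j
  have hD2 := fun F i j => md_D2 hM Q F i j
  have hD1 := fun F i => md_D1 hM Q F i
  obtain ⟨hun, hbi, heq, hco, hneg, hand, hor, himp, hex, hall, hfall, hfex⟩ := hM
  unfold Big
  refine hand _ _ ?_ (hand _ _ ?_ (hand _ _ ?_ (hand _ _ ?_ (hand _ _ ?_ (hand _ _ ?_ (hand _ _ ?_
    (hand _ _ ?_ (hand _ _ ?_ (hand _ _ ?_ (hand _ _ ?_ (hand _ _ ?_ (hand _ _ ?_
      (hand _ _ ?_ (hand _ _ ?_ (hand _ _ ?_ (hand _ _ ?_ ?_))))))))))))))))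
  · refine FOD_congr (hall 0 _ (hfex (XX Q) _ fun x => hand _ _ (hun (cd x) 0)
      (hfall (XX Q) _ fun y => himp _ _ (hco (y ≠ x)) (hneg _ (hun (cd y) 0))))) ?_
    intro A P E e
    simp
  · refine FOD_congr (hall 0 _ (hall 1 _ (himp _ _ (hC (L + 1) 0 1) (hC L 0 1)))) ?_
    intro A P E e
    simp [Function.update_apply]
  · refine FOD_congr (hall 0 _ (hall 1 _ (himp _ _ (hE 0 1 (by omega) (by omega))
      (hD2 (fun s t => s.2.1.r = false ∧ t.2.1.l = false ∧
        s.2.1.b = t.2.1.b ∧ s.2.1.t = t.2.1.t) 0 1)))) ?_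
    intro A P E e
    simp [Function.update_apply]
  · refine FOD_congr (hall 0 _ (hall 1 _ (himp _ _ (hN 0 1 (by omega) (by omega))
      (hD2 (fun s t => s.2.1.t = false ∧ t.2.1.b = false ∧
        s.2.1.l = t.2.1.l ∧ s.2.1.r = t.2.1.r) 0 1)))) ?_
    intro A P E e
    simp [Function.update_apply]
  · refine FOD_congr (hall 0 _ (hall 1 _ (hall 2 _ (himp _ _ (hE 0 1 (by omega) (by omega))
      (himp _ _ (hE 0 2 (by omega) (by omega)) (heq 1 2)))))) ?_
    intro A P E e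
    simp [Function.update_apply]
  · refine FOD_congr (hall 0 _ (hall 1 _ (hall 2 _ (himp _ _ (hE 0 2 (by omega) (by omega))
      (himp _ _ (hE 1 2 (by omega) (by omega)) (heq 0 1)))))) ?_
    intro A P E e
    simp [Function.update_apply]
  · refine FOD_congr (hall 0 _ (hall 1 _ (hall 2 _ (himp _ _ (hN 0 1 (by omega) (by omega))
      (himp _ _ (hN 0 2 (by omega) (by omega)) (heq 1 2)))))) ?_
    intro A P E e
    simp [Function.update_apply]
  · refine FOD_congr (hall 0 _ (hall 1 _ (hall 2 _ (himp _ _ (hN 0 2 (by omega) (by omega))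
      (himp _ _ (hN 1 2 (by omega) (by omega)) (heq 0 1)))))) ?_
    intro A P E e
    simp [Function.update_apply]
  · refine FOD_congr (hall 0 _ (himp _ _ (hun 0 0) (himp _ _ (hD1 (fun s => s.2.1.r = false) 0)
      (hex 1 _ (hE 0 1 (by omega) (by omega)))))) ?_
    intro A P E e
    simp [Function.update_apply]
  · refine FOD_congr (hall 0 _ (himp _ _ (hun 0 0) (himp _ _ (hD1 (fun s => s.2.1.t = false) 0)
      (hex 1 _ (hN 0 1 (by omega) (by omega)))))) ?_
    intro A P E e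
    simp [Function.update_apply]
  · refine FOD_congr (hall 1 _ (himp _ _ (hun 0 1) (himp _ _ (hD1 (fun s => s.2.1.l = false) 1)
      (hex 0 _ (hE 0 1 (by omega) (by omega)))))) ?_
    intro A P E e
    simp [Function.update_apply]
  · refine FOD_congr (hall 1 _ (himp _ _ (hun 0 1) (himp _ _ (hD1 (fun s => s.2.1.b = false) 1)
      (hex 0 _ (hN 0 1 (by omega) (by omega)))))) ?_
    intro A P E e
    simp [Function.update_apply]
  · refine FOD_congr (hex 0 _ (hand _ _ (hun 0 0)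
      (hD1 (fun s => s.2.1.l = true ∧ s.2.1.b = true) 0))) ?_
    intro A P E e
    simp
  · refine FOD_congr (hall 0 _ (hall 1 _ (himp _ _ (hun 0 0) (himp _ _ (hun 0 1)
      (himp _ _ (hD1 (fun s => s.2.1.l = true) 0) (himp _ _ (hD1 (fun s => s.2.1.b = true) 0)
        (himp _ _ (hD1 (fun s => s.2.1.l = true) 1) (himp _ _ (hD1 (fun s => s.2.1.b = true) 1)
          (heq 0 1))))))))) ?_
    intro A P E e
    simp [Function.update_apply]
  · refine FOD_congr (hall 0 _ (hall 1 _ (hall 2 _ (himp _ _ (hE 0 1 (by omega) (by omega))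
      (himp _ _ (hN 0 2 (by omega) (by omega)) (hex 3 _ (hand _ _ (hE 2 3 (by omega) (by omega))
        (hN 1 3 (by omega) (by omega))))))))) ?_
    intro A P E e
    simp [Function.update_apply]
  · refine FOD_congr (hall 0 _ (himp _ _ (hun 0 0)
      (hD1 (fun s => U s.2.1.l s.2.1.r s.2.1.b s.2.1.t s.2.2) 0))) ?_
    intro A P E e
    simp
  · refine FOD_congr (hall 0 _ (hall 1 _ (himp _ _ (hE 0 1 (by omega) (by omega))
      (hD2 (fun s t => Hh s.2.2 t.2.2) 0 1)))) ?_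
    intro A P E e
    simp [Function.update_apply]
  · refine FOD_congr (hall 0 _ (hall 1 _ (himp _ _ (hN 0 1 (by omega) (by omega))
      (hD2 (fun s t => Vv s.2.2 t.2.2) 0 1)))) ?_
    intro A P E e
    simp [Function.update_apply]

end

theorem pf_GRF (hM : T_MSF) : T_GRF := by
  intro L Q _ U Hh Vv
  obtain ⟨Ψ, hΨ, hS⟩ := md_Big hM Q L U Hh Vv
  refine ⟨Ψ, hΨ, ?_⟩
  intro n G R rp hn hR
  have hR0 : R 0 = G.Adj := by
    funext a b
    exact propext (hR a b)
  constructor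
  · rintro ⟨P, hP, hSat⟩
    have hB := (hS (Fin n) P R (fun _ => ⟨0, hn⟩) (fun _ => ∅)).1 (hSat _ _)
    rw [hR0] at hB
    choose dat hdat using hB.1
    have h : ∀ x a, P (cd x) a ↔ x = dat a := by
      intro x a
      constructor
      · intro hx
        by_contra hne
        exact (hdat a).2 x hne hx
      · rintro rfl
        exact (hdat a).1
    have hC := (big_iff L U Hh Vv h G).1 hB
    have hP0 : P 0 = rp := by
      funext a
      exact propext (hP a)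
    rw [hP0] at hC
    exact ⟨_, _, _, hC⟩
  · rintro ⟨co, lb, ti, hC⟩
    let P : ℕ → Fin n → Prop := fun k a => if k = 0 then rp a else
      k = cd ((co a, lb a, ti a) : XX Q)
    have h : ∀ (x : XX Q) a, P (cd x) a ↔ x = (co a, lb a, ti a) := by
      intro x a
      simp only [P, if_neg (cd_ne x)]
      exact ⟨fun hx => cd_inj hx, fun hx => by rw [hx]⟩
    have hP0 : P 0 = rp := by
      funext a
      simp [P]
    refine ⟨P, fun a => by rw [hP0], fun e V => ?_⟩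
    rw [hS, hR0]
    refine (big_iff L U Hh Vv h G).2 ?_
    rw [hP0]
    exact hC

end Pool.Agent.H14.MF
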