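import Pool.Agent.H8.MC.GTargets
import Pool.Agent.H14.MF.GRF
import Pool.Agent.H14.MF.MSF

/-!
# The rules for exact models of grids are definable in first-order logic
-/

set_option autoImplicit false

namespace Pool.Agent.H14.MF

open Pool.Agent.H8.MC Pool.Agent.H69.VR Pool.Agent.H8.VR Pool.Agent.H69.Sp

theorem msf_exs (h : ℕ) : ∀ {p : PT}, FOD p → FOD fun A P E e => ∃ f : Fin h → A,
    p A P E (fun j => if hj : j < h then f ⟨j, hj⟩ else e j) := by
  induction h with
  | zero =>
    intro p hp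
    refine msf_congr hp fun A P E e => ?_
    constructor
    · intro h
      refine ⟨fun i => i.elim0, ?_⟩
      simpa using h
    · rintro ⟨f, h⟩
      simpa using h
  | succ h ih =>
    intro p hp
    refine msf_congr (ih (msf_ex h hp)) fun A P E e => ?_
    constructor
    · rintro ⟨f, a, hf⟩
      refine ⟨fun j => if hj : j.1 < h then f ⟨j.1, hj⟩ else a, ?_⟩
      have h1 : (fun j => if hj : j < h + 1 then
          (fun j : Fin (h + 1) => if hj : j.1 < h then f ⟨j.1, hj⟩ else a) ⟨j, hj⟩ else e j) =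
          Function.update (fun j => if hj : j < h then f ⟨j, hj⟩ else e j) h a := by
        funext j
        rcases lt_trichotomy j h with hj | rfl | hj
        · rw [Function.update_of_ne hj.ne, dif_pos (by omega), dif_pos hj]
          exact dif_pos hj
        · rw [Function.update_self, dif_pos (by omega)]
          exact dif_neg (lt_irrefl _)
        · rw [Function.update_of_ne hj.ne', dif_neg (by omega), dif_neg (by omega)]
      rw [h1]
      exact hf
    · rintro ⟨f, hf⟩
      refine ⟨fun j => f ⟨j.1, by omega⟩, f ⟨h, by omega⟩, ?_⟩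
      have h1 : (fun j => if hj : j < h + 1 then f ⟨j, hj⟩ else e j) =
          Function.update (fun j => if hj : j < h then (fun j : Fin h => f ⟨j.1, by omega⟩) ⟨j, hj⟩
            else e j) h (f ⟨h, by omega⟩) := by
        funext j
        rcases lt_trichotomy j h with hj | rfl | hj
        · rw [Function.update_of_ne hj.ne, dif_pos (by omega), dif_pos hj]
        · rw [Function.update_self, dif_pos (by omega)]
        · rw [Function.update_of_ne hj.ne', dif_neg (by omega), dif_neg (by omega)]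
      rw [h1] at hf
      exact hf

section

variable (Q : Type) [Finite Q] {A : Type}

/-- `f` enumerates the component of `x` -/
def Enu (s : ℕ) (P : ℕ → A → Prop) (E : A → A → Prop) (x : A) (f : Fin s → A) : Prop :=
  (∀ i j : Fin s, i ≠ j → ¬ f i = f j) ∧ (∀ i, Cm' Q P E s x (f i)) ∧
    ∀ w, Cm' Q P E s x w → ∃ i, w = f i

/-- all rules -/
def Big3 (s : ℕ) (U : Bool → Bool → Bool → Bool → Q → Prop) (Hh Vv : Q → Q → Prop)
    (P : ℕ → A → Prop) (E : A → A → Prop) : Prop :=
  Big Q s U Hh Vv P E ∧ (∀ v, ∃ x, P 0 x ∧ Cm' Q P E s x v) ∧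
    (∀ x y, P 0 x → P 0 y → Cm' Q P E s x y → x = y) ∧ ∀ x, P 0 x → ∃ f, Enu Q s P E x f

theorem ncard_iff {V : Type} [Finite V] (C : V → Prop) (s : ℕ) : {v | C v}.ncard = s ↔
    ∃ f : Fin s → V, (∀ i j : Fin s, i ≠ j → ¬ f i = f j) ∧ (∀ i, C (f i)) ∧
      ∀ w, C w → ∃ i, w = f i := by
  constructor
  · intro h
    have e : {v | C v} ≃ Fin s := Finite.equivFinOfCardEq h
    refine ⟨fun i => (e.symm i : V), fun i j hij h' => hij ?_, fun i => (e.symm i).2,
      fun w hw => ⟨e ⟨w, hw⟩, ?_⟩⟩
    · exact e.symm.injective (Subtype.ext h')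
    · show w = (e.symm (e ⟨w, hw⟩) : V)
      rw [Equiv.symm_apply_apply]
  · rintro ⟨f, h1, h2, h3⟩
    have hf : Function.Injective f := fun i j hij => by
      by_contra hne
      exact h1 i j hne hij
    have h4 : {v | C v} = f '' Set.univ := by
      ext v
      constructor
      · intro hv
        obtain ⟨i, hi⟩ := h3 v hv
        exact ⟨i, Set.mem_univ _, hi.symm⟩
      · rintro ⟨i, -, rfl⟩
        exact h2 i
    rw [h4, Set.ncard_image_of_injective _ hf, Set.ncard_univ, Nat.card_eq_fintype_card,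
      Fintype.card_fin]

variable {Q} in
theorem big3_iff [Finite A] (s : ℕ) (U : Bool → Bool → Bool → Bool → Q → Prop)
    (Hh Vv : Q → Q → Prop) {P : ℕ → A → Prop} {dat : A → XX Q}
    (h : ∀ x a, P (cd x) a ↔ x = dat a) (G : SimpleGraph A) :
    Big3 Q s U Hh Vv P G.Adj ↔ ERule s U Hh Vv G (fun a => (dat a).1) (P 0)
      (fun a => (dat a).2.1) (fun a => (dat a).2.2) := by
  unfold Big3 Enu
  rw [big_iff s U Hh Vv h G]
  simp only [CmB_iff h G]
  constructor
  · rintro ⟨h1, h2, h3, h4⟩
    exact ⟨h1, h2, h3, fun x hx => (ncard_iff _ s).2 (h4 x hx)⟩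
  · rintro ⟨h1, h2, h3, h4⟩
    exact ⟨h1, h2, h3, fun x hx => (ncard_iff _ s).1 (h4 x hx)⟩

end

theorem fod_Enu (Q : Type) [Finite Q] (s : ℕ) :
    FOD fun A P E e => ∃ f : Fin s → A, Enu Q s P E (e s) f := by
  have hC := md_Cm pf_MSF Q s
  have h1 : FOD fun A P E e => (∀ i j : Fin s, i ≠ j → ¬ e i = e j) ∧
      (∀ i : Fin s, Cm' Q P E s (e s) (e i)) ∧
        ∀ w, Cm' Q P E s (e s) w → ∃ i : Fin s, w = e i := by
    refine msf_and (msf_finAll _ _ fun i => msf_finAll _ _ fun j => msf_imp (msf_const _)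
      (msf_not (msf_eq _ _))) (msf_and (msf_finAll _ _ fun i => hC s i) ?_)
    refine msf_congr (msf_all (s + 1) (msf_imp (hC s (s + 1))
      (msf_finEx (Fin s) _ fun i => msf_eq (s + 1) i))) ?_
    intro A P E e
    have k1 : ∀ a, Function.update e (s + 1) a s = e s := fun a =>
      Function.update_of_ne (by omega) _ _
    have k2 : ∀ a (i : Fin s), Function.update e (s + 1) a i = e i := fun a i =>
      Function.update_of_ne (by omega) _ _
    simp only [k1, k2, Function.update_self]
  refine msf_congr (msf_exs s h1) ?_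
  intro A P E e
  unfold Enu
  simp

theorem fod_Big3 (Q : Type) [Finite Q] (s : ℕ) (U : Bool → Bool → Bool → Bool → Q → Prop)
    (Hh Vv : Q → Q → Prop) : FOD fun A P E _ => Big3 Q s U Hh Vv P E := by
  have hC := md_Cm pf_MSF Q s
  unfold Big3
  refine msf_and (md_Big pf_MSF Q s U Hh Vv) (msf_and ?_ (msf_and ?_ ?_))
  · refine msf_congr (msf_all 0 (msf_ex 1 (msf_and (msf_un 0 1) (hC 1 0)))) ?_
    intro A P E e
    simp
  · refine msf_congr (msf_all 0 (msf_all 1 (msf_imp (msf_un 0 0) (msf_imp (msf_un 0 1)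
      (msf_imp (hC 0 1) (msf_eq 0 1)))))) ?_
    intro A P E e
    simp
  · refine msf_congr (msf_all s (msf_imp (msf_un 0 s) (fod_Enu Q s))) ?_
    intro A P E e
    simp

theorem pf_ERD (_hM : T_MSF) : T_ERD := by
  intro s Q _ U Hh Vv
  obtain ⟨Ψ, hΨ, hS⟩ := fod_Big3 Q s U Hh Vv
  refine ⟨Ψ, hΨ, ?_⟩
  intro n G hn
  constructor
  · rintro ⟨P, hSat⟩
    have hB := (hS (Fin n) P (fun _ => G.Adj) (fun _ => ⟨0, hn⟩) (fun _ => ∅)).1 (hSat _ _)
    choose dat hdat using hB.1.1
    have h : ∀ x a, P (cd x) a ↔ x = dat a := by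
      intro x a
      constructor
      · intro hx
        by_contra hne
        exact (hdat a).2 x hne hx
      · rintro rfl
        exact (hdat a).1
    exact ⟨_, _, _, _, (big3_iff s U Hh Vv h G).1 hB⟩
  · rintro ⟨co, rp, lb, ti, hC⟩
    let P : ℕ → Fin n → Prop := fun k a => if k = 0 then rp a else
      k = cd ((co a, lb a, ti a) : XX Q)
    have h : ∀ (x : XX Q) a, P (cd x) a ↔ x = (co a, lb a, ti a) := by
      intro x a
      simp only [P, if_neg (cd_ne x)]
      exact ⟨fun hx => cd_inj hx, fun hx => by rw [hx]⟩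
    have hP0 : P 0 = rp := by
      funext a
      simp [P]
    refine ⟨P, fun e V => ?_⟩
    rw [hS]
    refine (big3_iff s U Hh Vv h G).2 ?_
    rw [hP0]
    exact hC

end Pool.Agent.H14.MF
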